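import Mathlib

/-!
# The permutations of the integers and the homeomorphisms of the interval are not isomorphic under
decomposition

We answer Ulam's question in the negative, by the Hales-Jewett theorem. If the representations of
two groups `G` and `H` are product-isomorphic under decomposition, then every finite group `V` all
of whose finite powers embed in `G` embeds in `H`. The group of all permutations of the integers
contains all powers of the cyclic group of order three, but the homeomorphism group of the interval
has no element of order three.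
-/

set_option autoImplicit false

namespace Pool.Agent.Results.MP_0a04b1_lc.NotDecompositionIsomorphic

/-- Two subsets of `E³` are product-isomorphic: one bijection of `E`, applied to all three
coordinates, maps the first subset onto the second one. -/
def ProductIso {E : Type} (A B : Set (E × E × E)) : Prop :=
  ∃ f : E ≃ E, (fun p : E × E × E => (f p.1, f p.2.1, f p.2.2)) '' A = B

/-- Two subsets of `E³` are product-isomorphic under decomposition: for some finite `m ≥ 1` they
have partitions into `m` pairwise disjoint pieces such that corresponding pieces are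
product-isomorphic (the bijection may depend on the piece). -/
def ProductIsoUnderDecomposition {E : Type} (A B : Set (E × E × E)) : Prop :=
  ∃ (m : ℕ) (P Q : Fin m → Set (E × E × E)), 1 ≤ m ∧
    A = ⋃ i, P i ∧ B = ⋃ i, Q i ∧
    (Pairwise fun i j => Disjoint (P i) (P j)) ∧ (Pairwise fun i j => Disjoint (Q i) (Q j)) ∧
    ∀ i, ProductIso (P i) (Q i)

/-- The representation in `E³` (the graph of the multiplication) of a group `G` whose underlying
set is identified with `E` by the bijection `e`. -/
def representation {G E : Type} [Group G] (e : G ≃ E) : Set (E × E × E) :=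
  {p | e.symm p.1 * e.symm p.2.1 = e.symm p.2.2}

/-- The main lemma, for arbitrary groups. -/
theorem embeds {G H E : Type} [Group G] [Group H] (e₁ : G ≃ E) (e₂ : H ≃ E)
    (h : ProductIsoUnderDecomposition (representation e₁) (representation e₂))
    (V : Type) [Group V] [Finite V]
    (hV : ∀ (ι : Type) [Finite ι], ∃ φ : (ι → V) →* G, Function.Injective φ) :
    ∃ ψ : V →* H, Function.Injective ψ := by
  classical
  obtain ⟨m, P, Q, -, hA, hB, -, -, hPQ⟩ := h
  obtain ⟨ι, hfin, hι⟩ := Combinatorics.Line.exists_mono_in_high_dimension (V × V) (Fin m)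
  obtain ⟨φ, hφ⟩ := hV ι
  have hcol : ∀ w : ι → V × V, ∃ i : Fin m,
      (e₁ (φ fun j => (w j).1), e₁ (φ fun j => (w j).2),
        e₁ (φ fun j => (w j).1 * (w j).2)) ∈ P i := by
    intro w
    have : (e₁ (φ fun j => (w j).1), e₁ (φ fun j => (w j).2),
        e₁ (φ fun j => (w j).1 * (w j).2)) ∈ representation e₁ := by
      change e₁.symm _ * e₁.symm _ = e₁.symm _
      rw [Equiv.symm_apply_apply, Equiv.symm_apply_apply, Equiv.symm_apply_apply, ← map_mul]
      rfl
    rw [hA] at this
    exact Set.mem_iUnion.1 this
  choose C hC using hcol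
  obtain ⟨l, c, hl⟩ := hι C
  obtain ⟨f, hf⟩ := hPQ c
  -- the three families
  let X : V → ι → V := fun u j => (l.idxFun j).elim u Prod.fst
  let Y : V → ι → V := fun u j => (l.idxFun j).elim u Prod.snd
  let Z : V → ι → V := fun u j => (l.idxFun j).elim u fun p => p.1 * p.2
  let g : G → H := fun x => e₂.symm (f (e₁ x))
  have hg : Function.Injective g := e₂.symm.injective.comp (f.injective.comp e₁.injective)
  have key : ∀ u v, g (φ (X u)) * g (φ (Y v)) = g (φ (Z (u * v))) := by
    intro u v
    have h1 := hC (l (u, v))
    rw [hl (u, v)] at h1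
    have h2 := Set.mem_image_of_mem (fun p : E × E × E => (f p.1, f p.2.1, f p.2.2)) h1
    rw [hf] at h2
    have h3 : ∀ p ∈ Q c, p ∈ representation e₂ := by
      intro p hp
      rw [hB]
      exact Set.mem_iUnion.2 ⟨c, hp⟩
    have h4 := h3 _ h2
    change e₂.symm _ * e₂.symm _ = e₂.symm _ at h4
    have e1 : (fun j => (l (u, v) j).1) = X u := by
      funext j
      simp only [X, Combinatorics.Line.coe_apply]
      cases l.idxFun j <;> rfl
    have e2 : (fun j => (l (u, v) j).2) = Y v := by
      funext j
      simp only [Y, Combinatorics.Line.coe_apply]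
      cases l.idxFun j <;> rfl
    have e3 : (fun j => (l (u, v) j).1 * (l (u, v) j).2) = Z (u * v) := by
      funext j
      simp only [Z, Combinatorics.Line.coe_apply]
      cases l.idxFun j <;> rfl
    rw [← e1, ← e2, ← e3]
    exact h4
  obtain ⟨j₀, hj₀⟩ := l.proper
  have hX : Function.Injective X := by
    intro u v huv
    have := congrFun huv j₀
    simpa [X, hj₀] using this
  have key2 : ∀ u v, g (φ (X u)) * (g (φ (X 1)))⁻¹ * g (φ (X v)) = g (φ (X (u * v))) := by
    intro u v
    have h1 := key u v
    have h2 := key 1 v
    have h3 := key (u * v) 1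
    have h4 := key v 1
    rw [one_mul] at h2
    rw [mul_one] at h3 h4
    have h5 : g (φ (X v)) = g (φ (Z v)) * (g (φ (Y 1)))⁻¹ := by rw [← h4]; group
    have h6 : g (φ (X (u * v))) = g (φ (Z (u * v))) * (g (φ (Y 1)))⁻¹ := by rw [← h3]; group
    rw [h5, h6, ← h1, ← h2]
    group
  refine ⟨MonoidHom.mk' (fun u => (g (φ (X 1)))⁻¹ * g (φ (X u))) ?_, ?_⟩
  · intro u v
    rw [← key2 u v]
    group
  · intro u v huv
    simp only [MonoidHom.mk'_apply, mul_right_inj] at huv
    exact hX (hφ (hg huv))

/-- The homeomorphism group of the interval has no element of order three. -/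
theorem no_order_three (f : unitInterval ≃ₜ unitInterval) (hf : f ^ 3 = 1) : f = 1 := by
  have h3 : ∀ x, f (f (f x)) = x := by
    intro x
    have := congrArg (fun g : unitInterval ≃ₜ unitInterval => g x) hf
    simpa [pow_succ] using this
  rcases f.continuous.strictMono_of_inj_boundedOrder' f.injective with h | h
  · ext x
    congr 1
    change f x = x
    rcases lt_trichotomy (f x) x with h1 | h1 | h1
    · have h2 := (h (h h1)).trans ((h h1).trans h1)
      rw [h3] at h2
      exact absurd h2 (lt_irrefl _)
    · exact h1
    · have h2 := h1.trans ((h h1).trans (h (h h1)))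
      rw [h3] at h2
      exact absurd h2 (lt_irrefl _)
  · exfalso
    have h01 : (0 : unitInterval) < 1 := by norm_num
    have h2 := h (h (h h01))
    rw [h3, h3] at h2
    exact absurd (h01.trans h2) (lt_irrefl _)

/-- Every finite power of every finite group embeds in the group of the permutations of `ℤ`. -/
theorem embeds_perm (W : Type) [Group W] [Finite W] :
    ∃ φ : W →* Equiv.Perm ℤ, Function.Injective φ := by
  obtain ⟨n, ⟨e⟩⟩ := Finite.exists_equiv_fin W
  let i : W ↪ ℤ := e.toEmbedding.trans
    ⟨fun k : Fin n => ((k : ℕ) : ℤ), fun a b h => Fin.ext (Int.ofNat.inj h)⟩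
  refine ⟨(Equiv.Perm.viaEmbeddingHom i).comp (MulAction.toPermHom W W), ?_⟩
  exact (Equiv.Perm.viaEmbeddingHom_injective i).comp MulAction.toPerm_injective

/-- The permutation group of `ℤ` and the group of the homeomorphisms of `[0, 1]` are not
isomorphic under decomposition, whatever the identifications of the underlying sets of both groups
with a common set `E` are. -/
theorem result (E : Type) (e₁ : Equiv.Perm ℤ ≃ E) (e₂ : (unitInterval ≃ₜ unitInterval) ≃ E) :
    ¬ ProductIsoUnderDecomposition (representation e₁) (representation e₂) := by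
  intro h
  obtain ⟨ψ, hψ⟩ := embeds e₁ e₂ h (Multiplicative (ZMod 3)) (fun ι _ => embeds_perm _)
  have h1 : ψ (Multiplicative.ofAdd 1) = 1 := by
    apply no_order_three
    rw [← map_pow]
    have : (Multiplicative.ofAdd (1 : ZMod 3)) ^ 3 = 1 := by decide
    rw [this, map_one]
  have h2 : (Multiplicative.ofAdd (1 : ZMod 3)) = 1 := by
    apply hψ
    rw [h1, map_one]
  revert h2
  decide

end Pool.Agent.Results.MP_0a04b1_lc.NotDecompositionIsomorphic
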